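import Pool.Agent.T2H40.BR.Pkg.A2
import Pool.Agent.T2H40.BR.Pkg.H1
import Pool.Agent.T2H40.BR.D.Q9_fin
import Pool.Agent.T2H40.BR.D.Q8_fin
import Pool.Agent.T2H40.BR.D.Q2_fin
import Pool.Agent.T2H40.BR.D.Q4_fin
import Pool.Agent.T2H40.BR.D.Q3_fin
import Pool.Agent.T2H40.BR.D.Q1_fin
import Pool.Agent.T2H40.BR.D.Q5_fin
import Pool.Agent.T2H40.BR.D.T0_fin
import Pool.Agent.T2H40.BR.D.T1_fin
import Pool.Agent.T2H40.BR.D.U1_fin
import Pool.Agent.T2H40.BR.D.U2_fin

/-!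
# The bound for projections, all values of `a = ∑ i ∈ C, (1 - P i i)`
-/

set_option autoImplicit false

namespace Pool.Agent.T2H40.BR

theorem all_bound (V : Type) [Fintype V] [DecidableEq V] (P : V → V → ℝ)
    (hs : ∀ i j, P i j = P j i) (hid : ∀ i j, ∑ l, P i l * P l j = P i j) (C : Finset V) (k : ℕ)
    (hk : C.card = k) (htr : ∑ i, P i i = (k : ℝ)) (htop : ∀ i ∈ C, ∀ j, j ∉ C → P j j ≤ P i i)
    (A : V → V → Prop) [DecidableRel A] (hirr : ∀ i, ¬ A i i) :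
    ∑ i, ∑ j, (if A i j then P i i + P j j + 2 * P i j - 1 else 0) ≤ (k : ℝ) ^ 2 + k := by
  obtain ⟨x, hx⟩ : ∃ x : V → ℝ, ∀ i, x i = if i ∈ C then 1 - P i i else P i i :=
    ⟨fun i => if i ∈ C then 1 - P i i else P i i, fun i => rfl⟩
  obtain ⟨a, ha⟩ : ∃ a : ℝ, a = ∑ i ∈ C, x i := ⟨_, rfl⟩
  by_cases h0 : a ≤ 1 / 2
  · exact bound_half hs hid C k hk htr x hx (by rw [← ha]; exact h0) A hirr
  by_cases h1 : a ≤ 1650 / 3000
  · exact bound_of_chk Q9.p Q9.piece hs hid C k hk htr x hx htop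
      (by change (((1500 : ℤ) : ℝ)) / 3000 ≤ _; push_cast; linarith)
      (by change _ ≤ (((1650 : ℤ) : ℝ)) / 3000; push_cast; linarith) A hirr
  by_cases h2 : a ≤ 1800 / 3000
  · exact bound_of_chk Q8.p Q8.piece hs hid C k hk htr x hx htop
      (by change (((1650 : ℤ) : ℝ)) / 3000 ≤ _; push_cast; linarith)
      (by change _ ≤ (((1800 : ℤ) : ℝ)) / 3000; push_cast; linarith) A hirr
  by_cases h3 : a ≤ 1890 / 3000
  · exact bound_of_chk Q2.p Q2.piece hs hid C k hk htr x hx htop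
      (by change (((1800 : ℤ) : ℝ)) / 3000 ≤ _; push_cast; linarith)
      (by change _ ≤ (((1890 : ℤ) : ℝ)) / 3000; push_cast; linarith) A hirr
  by_cases h4 : a ≤ 1950 / 3000
  · exact bound_of_chk Q4.p Q4.piece hs hid C k hk htr x hx htop
      (by change (((1890 : ℤ) : ℝ)) / 3000 ≤ _; push_cast; linarith)
      (by change _ ≤ (((1950 : ℤ) : ℝ)) / 3000; push_cast; linarith) A hirr
  by_cases h5 : a ≤ 2000 / 3000
  · exact bound_of_chk Q3.p Q3.piece hs hid C k hk htr x hx htop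
      (by change (((1950 : ℤ) : ℝ)) / 3000 ≤ _; push_cast; linarith)
      (by change _ ≤ (((2000 : ℤ) : ℝ)) / 3000; push_cast; linarith) A hirr
  by_cases h6 : a ≤ 2190 / 3000
  · exact bound_of_chk Q1.p Q1.piece hs hid C k hk htr x hx htop
      (by change (((2000 : ℤ) : ℝ)) / 3000 ≤ _; push_cast; linarith)
      (by change _ ≤ (((2190 : ℤ) : ℝ)) / 3000; push_cast; linarith) A hirr
  by_cases h7 : a ≤ 2400 / 3000
  · exact bound_of_chk Q5.p Q5.piece hs hid C k hk htr x hx htop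
      (by change (((2190 : ℤ) : ℝ)) / 3000 ≤ _; push_cast; linarith)
      (by change _ ≤ (((2400 : ℤ) : ℝ)) / 3000; push_cast; linarith) A hirr
  by_cases h8 : a ≤ 2700 / 3000
  · exact bound_of_achk T0.p T0.piece hs hid C k hk htr x hx htop
      (by change (((2400 : ℤ) : ℝ)) / 3000 ≤ _; push_cast; linarith)
      (by change _ ≤ (((2700 : ℤ) : ℝ)) / 3000; push_cast; linarith) A hirr
  by_cases h9 : a ≤ 3000 / 3000
  · exact bound_of_achk T1.p T1.piece hs hid C k hk htr x hx htop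
      (by change (((2700 : ℤ) : ℝ)) / 3000 ≤ _; push_cast; linarith)
      (by change _ ≤ (((3000 : ℤ) : ℝ)) / 3000; push_cast; linarith) A hirr
  exact bound_of_two U1.p U2.p U1.piece U2.piece rfl rfl rfl rfl hs hid C k hk htr x hx htop
      (by change (((3000 : ℤ) : ℝ)) / 3000 ≤ _; push_cast; linarith)
      (by change (((3000 : ℤ) : ℝ)) / 3000 ≤ _; push_cast; linarith) A hirr

end Pool.Agent.T2H40.BR
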