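import Mathlib

/-!
# Real quantities of the pair functions

Index types: `C` (with `x = ε = 1 - P_ii`) and `S` (with `r = P_ii`). The function `A = An / Ad`.
-/

set_option autoImplicit false

namespace Pool.Agent.T2H40.BR

noncomputable section

/-- `Ad * K`, `K = dl + (1 - a) gs + (1 - r) A` -/
def Kn (a r gs dl An Ad : ℝ) : ℝ := Ad * (dl + (1 - a) * gs) + (1 - r) * An

/-- `x (1 - x) Ad * Γ` -/
def Gn (a x r Vc Vs gc gs dl An Ad : ℝ) : ℝ :=
  Ad * ((1 - x) + x * (1 - x) * (a * gs - Vc * Vc - Vs * Vs) + x * (x * dl + (a - x) * gc))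
    + x * (1 - x) * r * An

/-- the coefficient of `q ^ 2` for a pair of types `C`, `S` -/
def GCS (a x r Vc Vs gc gs dl An Ad : ℝ) : ℝ :=
  1 / x - Vc ^ 2 + (x * dl + (a - x) * gc) / (1 - x) + a * gs + r * (An / Ad) - Vs ^ 2

/-- pair function, types `C`, `S` -/
def ECS (a x r q Vc Vs gc gs dl An Ad : ℝ) : ℝ :=
  r - (dl + (1 - a) * gs + (1 - r) * (An / Ad)) * (x * r)
    + GCS a x r Vc Vs gc gs dl An Ad * q ^ 2
    + 2 * ((Real.sqrt (1 - x) * Vc) * (Real.sqrt r * Vs)) * q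

/-- `DD * Γ` for two indices of type `S`; `DD = Ad * Bd` -/
def SG (a lam r q V W g h An Ad Bn Bd : ℝ) : ℝ :=
  Ad * Bd * (lam + a * (g + h) - V * V - W * W) + r * An * Bd + q * Bn * Ad

/-- `DD * Â` for two indices of type `S` -/
def SH (a lam r q g h An Ad Bn Bd : ℝ) : ℝ :=
  (1 - r) * An * Bd + (1 - q) * Bn * Ad - Ad * Bd * (lam + a * (g + h))

/-- pair function, types `S`, `S` (weights `r`, `s`; off-diagonal entry `q`) -/
def ESS (a lam r s q V W g h An Ad Bn Bd : ℝ) : ℝ :=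
  (r * s) * ((1 - r) * (An / Ad) + (1 - s) * (Bn / Bd) - lam - a * (g + h))
    + (lam + a * (g + h) + r * (An / Ad) + s * (Bn / Bd) - V ^ 2 - W ^ 2) * q ^ 2
    + 2 * ((Real.sqrt r * V) * (Real.sqrt s * W)) * q

/-- `(1 - x) (γ_x - 1 / x)` for an index of type `C` -/
def G1 (a lam x V g d : ℝ) : ℝ := x * d + (a - x) * g - (1 - x) * (V * V + lam / 2)

/-- pair function, types `C`, `C` -/
def ECC (a lam x y q V W g h d e : ℝ) : ℝ :=
  1 - x - y + (d + e + lam - g - h) * (x * y)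
    + (1 / x + G1 a lam x V g d / (1 - x) + (1 / y + G1 a lam y W h e / (1 - y))) * q ^ 2
    + 2 * ((Real.sqrt (1 - x) * V) * (Real.sqrt (1 - y) * W)) * q

end

end Pool.Agent.T2H40.BR
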