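import Pool.Agent.T2H40.BR.Defs
import Pool.Agent.T2H40.BR.RDefs

/-!
# Pieces and the polynomials to be checked
-/

set_option autoImplicit false

namespace Pool.Agent.T2H40.BR

/-- `∑ x ^ i (c_i + d_i t)` (in units of `1 / 3000`) -/
def evalE : List (ℤ × ℤ) → Ex → Ex → Ex
  | [], _, _ => .int 0
  | [c], _, t => if c.2 = 0 then .cst c.1 else .cst c.1 + .cst c.2 * t
  | c :: cs, x, t => (if c.2 = 0 then .cst c.1 else .cst c.1 + .cst c.2 * t) + x * evalE cs x t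

/-- class of `S` indices: `r ∈ [lo, hi]`; `kd = 0`: `Ad = 1 - r`; `1`: `Ad = a`; otherwise `Ad = a r` -/
structure SCls where
  lo : ℤ
  hi : ℤ
  V : List (ℤ × ℤ)
  g : List (ℤ × ℤ)
  An : List (ℤ × ℤ)
  kd : ℕ

/-- a piece: `a ∈ [a0, a1]`, `V_c = 1 - x W`; `ch`: constant of the lower bound
`1 - x / 2 - ch x ^ 2` of `√(1 - x)`; `tc`: use the coordinate `β = a - x` (or `a - r - s`) -/
structure Piece where
  a0 : ℤ
  a1 : ℤ
  lam : ℤ × ℤ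
  W : List (ℤ × ℤ)
  g : List (ℤ × ℤ)
  d : List (ℤ × ℤ)
  S : List SCls
  e1 : ℤ
  ch : ℤ
  tc : Bool
  tr : ℤ

/-- use the coordinate `β` for the class `c` (a class containing the critical value `tr`) -/
def tcOf (p : Piece) (c : SCls) : Bool :=
  p.tc && (decide (c.lo ≤ p.tr) && decide (p.tr ≤ c.hi))

/-- sanity conditions -/
def Piece.ok (p : Piece) : Bool :=
  decide (0 < p.a0) && decide (p.a0 < p.a1) && decide (p.a1 < 3000) && decide (0 < p.e1) &&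
  decide (p.e1 < p.a0) && decide (0 ≤ p.ch) &&
  decide (750 * 3000 ^ 3 - 2 * p.ch * 3000 ^ 3 + p.ch * p.a1 * 3000 ^ 2 + p.ch ^ 2 * p.a1 ^ 2 ≤ 0) &&
  decide (0 ≤ 2 * 3000 ^ 3 - p.a1 * 3000 ^ 2 - 2 * p.ch * p.a1 ^ 2)

def SCls.ok (c : SCls) : Bool :=
  decide (0 ≤ c.lo) && decide (c.lo < c.hi) && (decide (c.kd < 2) || decide (0 < c.lo))

def AdE (kd : ℕ) (a r : Ex) : Ex :=
  match kd with
  | 0 => .int 1 - r
  | 1 => a
  | _ => a * r

/-- data of a pair `C`, `S` -/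
structure CSE where
  a : Ex
  x : Ex
  r : Ex
  Vc : Ex
  Vs : Ex
  gc : Ex
  gs : Ex
  dl : Ex
  An : Ex
  Ad : Ex

def Piece.cs (p : Piece) (c : SCls) (a x r : Ex) : CSE :=
  let t := a - .cst p.a0
  ⟨a, x, r, .int 1 - x * evalE p.W x t, evalE c.V r t, evalE p.g x t, evalE c.g r t,
    evalE p.d x t, evalE c.An r t, AdE c.kd a r⟩

def CSE.Kn (p : CSE) : Ex := p.Ad * (p.dl + (.int 1 - p.a) * p.gs) + (.int 1 - p.r) * p.An

def CSE.Gn (p : CSE) : Ex :=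
  p.Ad * ((.int 1 - p.x) + p.x * (.int 1 - p.x) * (p.a * p.gs - p.Vc * p.Vc - p.Vs * p.Vs)
      + p.x * (p.x * p.dl + (p.a - p.x) * p.gc))
    + p.x * (.int 1 - p.x) * p.r * p.An

def CSE.N (p : CSE) : List (List Ex) :=
  [[p.Gn, p.Ad - p.Kn * p.x,
      p.Gn * (p.Ad - p.Kn * p.x)
        - p.Ad * p.Ad * p.x * (.int 1 - p.x) * (.int 1 - p.x) * (p.Vc * p.Vs) * (p.Vc * p.Vs)],
   [p.Vc * p.Vs, p.x * (.int 1 - p.x) * p.Ad * (p.Vc * p.Vs) - p.Gn,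
      p.x * (p.Ad - p.Kn * p.x) + p.Gn
        - .int 2 * p.x * (.int 1 - p.x) * p.Ad * (p.Vc * p.Vs)]]

/-- `1 - (1 - x) w Vc Vs` -/
def CSE.L1 (p : CSE) (w : Ex) : Ex := .int 1 - (.int 1 - p.x) * w * p.Vc * p.Vs

def CSE.B (p : CSE) (w s : Ex) : List Ex :=
  [p.Gn, p.x * (p.Ad - p.Kn * p.r) - s * (.int 1 - p.x) * p.r * p.Ad,
    (p.Gn + s * p.x * (.int 1 - p.x) * p.Ad)
        * (p.x * (p.Ad - p.Kn * p.r) - s * (.int 1 - p.x) * p.r * p.Ad)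
      - p.x * (.int 1 - p.x) * p.Ad * p.Ad * p.L1 w * p.L1 w]

def CSE.A2 (p : CSE) (w : Ex) : Ex :=
  p.x * p.x * (p.Ad - p.Kn * p.r) - .int 2 * p.x * (.int 1 - p.x) * p.Ad * w * p.L1 w
    + (.int 1 - p.x) * w * w * p.Gn

def CSE.A3 (p : CSE) (w : Ex) : Ex := p.x * p.Ad * p.L1 w - w * p.Gn

/-- options for the edge inequality, `r = (1 - x) w ^ 2` -/
def CSE.E (p : CSE) (w : Ex) : List (List Ex) :=
  [p.B w (.int 0), [p.Gn, p.Ad - p.Kn * p.r, p.L1 w, p.A2 w, p.A3 w],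
   p.B w (.cst 1500), p.B w (.int 1), p.B w (.int 2),
   [p.x - p.r, p.L1 w, p.A2 w, p.A3 w]]

/-- options near the star limit, `w = t x` -/
def CSE.Es (p : CSE) (t : Ex) : List (List Ex) :=
  let w := t * p.x
  [[p.Gn, p.Ad - p.Kn * p.r, p.L1 w,
      p.Ad - p.Kn * p.r - .int 2 * (.int 1 - p.x) * p.Ad * t * p.L1 w
        + (.int 1 - p.x) * t * t * p.Gn,
      p.Ad * p.L1 w - t * p.Gn],
   [p.Gn, p.Ad - p.Kn * p.r,
      (p.Ad * (.int 0 - .int 1 + (.int 1 - p.x) * (p.a * p.gs - p.Vc * p.Vc - p.Vs * p.Vs)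
            + p.x * p.dl + (p.a - p.x) * p.gc) + (.int 1 - p.x) * p.r * p.An) * p.Ad
        + p.Ad * p.Ad * (.int 1 + .int 2 * (.int 1 - p.x) * ((.int 1 - p.x) * t * p.Vc * p.Vs)
            - (.int 1 - p.x) * p.x * ((.int 1 - p.x) * t * p.Vc * p.Vs)
              * ((.int 1 - p.x) * t * p.Vc * p.Vs))
        - p.x * p.Gn * p.Kn * (.int 1 - p.x) * t * t]]

/-- data of a pair `S`, `S` -/
structure SSE where
  a : Ex
  lam : Ex
  r : Ex
  s : Ex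
  V : Ex
  W : Ex
  g : Ex
  h : Ex
  An : Ex
  Ad : Ex
  Bn : Ex
  Bd : Ex

def Piece.ss (p : Piece) (c c' : SCls) (a r s : Ex) : SSE :=
  let t := a - .cst p.a0
  ⟨a, evalE [p.lam] (.int 0) t, r, s, evalE c.V r t, evalE c'.V s t, evalE c.g r t, evalE c'.g s t,
    evalE c.An r t, AdE c.kd a r, evalE c'.An s t, AdE c'.kd a s⟩

def SSE.G (p : SSE) : Ex :=
  p.Ad * p.Bd * (p.lam + p.a * (p.g + p.h) - p.V * p.V - p.W * p.W) + p.r * p.An * p.Bd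
    + p.s * p.Bn * p.Ad

def SSE.H (p : SSE) : Ex :=
  (.int 1 - p.r) * p.An * p.Bd + (.int 1 - p.s) * p.Bn * p.Ad
    - p.Ad * p.Bd * (p.lam + p.a * (p.g + p.h))

def SSE.N (p : SSE) : List (List Ex) :=
  [[p.G, p.H, p.G * p.H - (p.Ad * p.Bd) * (p.Ad * p.Bd) * (p.V * p.W) * (p.V * p.W)],
   [p.V * p.W, p.Ad * p.Bd * (p.V * p.W) - p.G, p.H + p.G - .int 2 * (p.Ad * p.Bd) * (p.V * p.W)]]

def SSE.c (p : SSE) : Ex := (p.Ad * p.Bd) * (.int 1 - p.r - p.s) + p.r * p.s * p.H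
def SSE.Gp (p : SSE) : Ex := p.G + .int 2 * (p.Ad * p.Bd) * (p.V * p.W)
def SSE.Th (p : SSE) : Ex := p.c + p.r * p.s * p.Gp

def SSE.B (p : SSE) (t : Ex) : List Ex :=
  [p.Gp, p.c - t * p.r * p.s * (p.Ad * p.Bd),
    (p.c - t * p.r * p.s * (p.Ad * p.Bd)) * (p.Gp + t * (p.Ad * p.Bd))
      - (p.Ad * p.Bd) * (p.Ad * p.Bd)]

def SSE.E (p : SSE) : List (List Ex) :=
  [[.int 1 - p.r - p.s, (.int 1 - p.r - p.s) * (.int 1 - p.r - p.s) - .int 4 * p.r * p.s],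
   p.B (.int 0), p.B (.cst 1500), p.B (.int 1),
   [p.Th, p.Th * p.Th - .int 4 * p.r * p.s * (p.Ad * p.Bd) * (p.Ad * p.Bd),
     (p.Ad * p.Bd) * (p.Ad * p.Bd) - p.Gp * p.Gp * p.r * p.s]]

/-- data of a pair `C`, `C`: `x = σ (1 - v)`, `y = σ v` -/
structure CCE where
  a : Ex
  lam : Ex
  σ : Ex
  v : Ex
  W1 : Ex
  W2 : Ex
  g : Ex
  h : Ex
  d : Ex
  e : Ex
  c : Ex

def Piece.cc (p : Piece) (a σ v : Ex) : CCE :=
  let t := a - .cst p.a0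
  let x := σ * (.int 1 - v)
  let y := σ * v
  ⟨a, evalE [p.lam] (.int 0) t, σ, v, evalE p.W x t, evalE p.W y t, evalE p.g x t, evalE p.g y t,
    evalE p.d x t, evalE p.d y t, .cst p.ch⟩

def CCE.x (p : CCE) : Ex := p.σ * (.int 1 - p.v)
def CCE.y (p : CCE) : Ex := p.σ * p.v
def CCE.V (p : CCE) : Ex := .int 1 - p.x * p.W1
def CCE.U (p : CCE) : Ex := .int 1 - p.y * p.W2
def CCE.G1 (p : CCE) : Ex :=
  p.x * p.d + (p.a - p.x) * p.g - (.int 1 - p.x) * (p.V * p.V + .cst 1500 * p.lam)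
def CCE.G2 (p : CCE) : Ex :=
  p.y * p.e + (p.a - p.y) * p.h - (.int 1 - p.y) * (p.U * p.U + .cst 1500 * p.lam)
def CCE.D2 (p : CCE) : Ex := (.int 1 - p.x) * (.int 1 - p.y)
/-- `GC` -/
def CCE.G (p : CCE) : Ex :=
  p.D2 + p.σ * p.v * (.int 1 - p.v) * (p.G1 * (.int 1 - p.y) + p.G2 * (.int 1 - p.x))
def CCE.ch (p : CCE) : Ex := p.d + p.e + p.lam - p.g - p.h
def CCE.Z1 (p : CCE) : Ex :=
  (.cst 1500 + p.c * p.x) + p.W1 - p.x * (.cst 1500 + p.c * p.x) * p.W1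
def CCE.Z2 (p : CCE) : Ex :=
  (.cst 1500 + p.c * p.y) + p.W2 - p.y * (.cst 1500 + p.c * p.y) * p.W2
def CCE.Y1 (p : CCE) : Ex := .cst 1500 + p.W1 - .cst 1500 * p.x * p.W1
def CCE.Y2 (p : CCE) : Ex := .cst 1500 + p.W2 - .cst 1500 * p.y * p.W2
def CCE.u (p : CCE) : Ex :=
  (.int 1 - p.v) * p.Z1 + p.v * p.Z2 - p.σ * p.v * (.int 1 - p.v) * p.Z1 * p.Z2
def CCE.u' (p : CCE) : Ex :=
  (.int 1 - p.v) * p.Y1 + p.v * p.Y2 - p.σ * p.v * (.int 1 - p.v) * p.Y1 * p.Y2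
def CCE.A (p : CCE) : Ex := .int 1 - p.σ + p.σ * p.σ * p.v * (.int 1 - p.v) * p.ch

def CCE.M (p : CCE) (z : Ex) : Ex := p.ch * p.G - p.D2 * p.σ * z * z

def CCE.E (p : CCE) : List (List Ex) :=
  [[p.G, p.ch, p.u + p.u', p.M p.u], [p.G, p.ch, .int 0 - p.u - p.u', p.M p.u'],
   [p.G, p.ch, p.M p.u, p.M p.u']]

def CCE.N (p : CCE) : List (List Ex) :=
  [[p.G, p.A, p.A * p.G - p.σ * p.v * (.int 1 - p.v) * p.D2 * p.D2 * (p.V * p.U) * (p.V * p.U)]]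

/-- a tiny positive number -/
def tau : Ex := .cst 1 * .cst 1 * .cst 1

/-- variables -/
def v0 : Ex := .var 0
def v1 : Ex := .var 1
def v2 : Ex := .var 2

/-- CC, variables `a, σ, v` -/
def ccEopts (p : Piece) : List (List Ex) := (p.cc v0 v1 v2).E ++ [[v1 - v0 - tau]]
def ccNopts (p : Piece) : List (List Ex) := (p.cc v0 v1 v2).N ++ [[v1 - v0 - tau]]
def ccBox (p : Piece) : Box := ⟨p.a0, p.a1, 0, p.a1, 0, 1500⟩

/-- `V_c ≥ 0`, variables `a, x` -/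
def vCopts (p : Piece) : List (List Ex) := [[.int 1 - v1 * evalE p.W v1 (v0 - .cst p.a0)]]
def vCBox (p : Piece) : Box := ⟨p.a0, p.a1, 0, p.a1, 0, 3000⟩

/-- `V_s ≥ 0`, variables `a, r` -/
def vSopts (p : Piece) (c : SCls) : List (List Ex) := [[evalE c.V v1 (v0 - .cst p.a0)]]
def vSBox (p : Piece) (c : SCls) : Box := ⟨p.a0, p.a1, c.lo, c.hi, 0, 3000⟩

/-- CS nonedge, variables `a, x, r` -/
def csNopts (p : Piece) (c : SCls) : List (List Ex) :=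
  (p.cs c v0 v1 v2).N ++ [[v1 - v0 - tau], [v1 + v2 - .int 1 - tau], [v2 - v0 - tau]]
def csNBox (p : Piece) (c : SCls) : Box := ⟨p.a0, p.a1, 0, p.a1, c.lo, c.hi⟩

/-- CS star limit, variables `a, x, η` (`w = η x`) -/
def csEsopts (p : Piece) (c : SCls) : List (List Ex) :=
  (p.cs c v0 v1 ((.int 1 - v1) * (v2 * v1) * (v2 * v1))).Es v2
def csEsBox (p : Piece) : Box := ⟨p.a0, p.a1, 0, p.e1, 0, 6000⟩

/-- CS small `x`, `2 x ≤ w ≤ 2 e1`, variables `a, x, y` (`w = 2 x + y`) -/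
def csEtopts (p : Piece) (c : SCls) : List (List Ex) :=
  let w := .int 2 * v1 + v2
  let r := (.int 1 - v1) * w * w
  (p.cs c v0 v1 r).E w
    ++ [[r - v0 - tau], [.cst c.lo - r - tau], [r - .cst c.hi - tau], [w - .int 1 - tau]]
def csEtBox (p : Piece) : Box := ⟨p.a0, p.a1, 0, p.e1, 0, 2 * p.e1⟩

/-- CS small `x`, `2 e1 ≤ w`, variables `a, x, w` -/
def csEuopts (p : Piece) (c : SCls) : List (List Ex) :=
  let r := (.int 1 - v1) * v2 * v2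
  (p.cs c v0 v1 r).E v2 ++ [[r - v0 - tau], [.cst c.lo - r - tau], [r - .cst c.hi - tau]]
def csEuBox (p : Piece) : Box := ⟨p.a0, p.a1, 0, p.e1, 2 * p.e1, 3000⟩

/-- CS edge, `e1 ≤ x`, variables `a, β, w` (`x = a - β`) or `a, x, w` -/
def csEopts (p : Piece) (c : SCls) : List (List Ex) :=
  let x := if tcOf p c then v0 - v1 else v1
  let r := (.int 1 - x) * v2 * v2
  (p.cs c v0 x r).E v2
    ++ [[r - v0 - tau], [.cst p.e1 - x - tau], [.cst c.lo - r - tau], [r - .cst c.hi - tau],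
      [x - v0 - tau]]
def csEBox (p : Piece) (c : SCls) : Box :=
  if tcOf p c then ⟨p.a0, p.a1, 0, p.a1 - p.e1, 0, 3000⟩ else ⟨p.a0, p.a1, p.e1, p.a1, 0, 3000⟩

/-- SS nonedge, variables `a, r, s` (`s ≤ r`) -/
def ssNopts (p : Piece) (c c' : SCls) : List (List Ex) :=
  (p.ss c c' v0 v1 v2).N ++ [[v1 + v2 - v0 - tau], [v2 - v1 - tau]]
def ssNBox (p : Piece) (c c' : SCls) : Box := ⟨p.a0, p.a1, c.lo, c.hi, c'.lo, c'.hi⟩

/-- SS edge, variables `a, β, d` (`r + s = a - β`, `r - s = d`) or `a, r, s` -/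
def ssEopts (p : Piece) (c c' : SCls) : List (List Ex) :=
  let r := if p.tc then .cst 1500 * (v0 - v1 + v2) else v1
  let s := if p.tc then .cst 1500 * (v0 - v1 - v2) else v2
  (p.ss c c' v0 r s).E
    ++ [[.int 0 - s - tau], [.cst c.lo - r - tau], [r - .cst c.hi - tau],
      [.cst c'.lo - s - tau], [s - .cst c'.hi - tau], [r + s - v0 - tau], [s - r - tau]]
def ssEBox (p : Piece) : Box :=
  if p.tc then ⟨p.a0, p.a1, 0, p.a1, 0, p.a1⟩ else ⟨p.a0, p.a1, 0, p.a1, 0, (p.a1 + 1) / 2⟩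

/-- some option holds everywhere on the box -/
def Chk (opts : List (List Ex)) (B : Box) : Prop :=
  ∀ v, B.mem v → ∃ es ∈ opts, ∀ e ∈ es, 0 ≤ e.ev v

/-! ### real side -/

noncomputable section

def evalR : List (ℤ × ℤ) → ℝ → ℝ → ℝ
  | [], _, _ => 0
  | c :: cs, x, t => ((c.1 : ℝ) / 3000 + (c.2 : ℝ) / 3000 * t) + x * evalR cs x t

def Piece.t (p : Piece) (a : ℝ) : ℝ := a - (p.a0 : ℝ) / 3000
def Piece.lamR (p : Piece) (a : ℝ) : ℝ := evalR [p.lam] 0 (p.t a)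
def Piece.VcR (p : Piece) (a x : ℝ) : ℝ := 1 - x * evalR p.W x (p.t a)
def Piece.gcR (p : Piece) (a x : ℝ) : ℝ := evalR p.g x (p.t a)
def Piece.dlR (p : Piece) (a x : ℝ) : ℝ := evalR p.d x (p.t a)
def SCls.VR (c : SCls) (p : Piece) (a r : ℝ) : ℝ := evalR c.V r (p.t a)
def SCls.gR (c : SCls) (p : Piece) (a r : ℝ) : ℝ := evalR c.g r (p.t a)
def SCls.AnR (c : SCls) (p : Piece) (a r : ℝ) : ℝ := evalR c.An r (p.t a)
def SCls.AdR (c : SCls) (a r : ℝ) : ℝ :=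
  match c.kd with
  | 0 => 1 - r
  | 1 => a
  | _ => a * r

/-- the class of `r` -/
def clsOf : List SCls → ℝ → SCls
  | [], _ => ⟨0, 0, [], [], [], 0⟩
  | [c], _ => c
  | c :: c' :: cs, r => open Classical in if r ≤ (c.hi : ℝ) / 3000 then c else clsOf (c' :: cs) r

end

/-- value of a packed polynomial -/
theorem evalE_ev (cs : List (ℤ × ℤ)) (x t : Ex) (v : Fin 3 → ℝ) :
    (evalE cs x t).ev v = evalR cs (x.ev v) (t.ev v) := by
  induction cs with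
  | nil => simp [evalE, evalR, Ex.ev]
  | cons c cs ih =>
    cases cs with
    | nil =>
      unfold evalE evalR
      split_ifs with h
      · simp [Ex.ev, evalR, h]
      · change (Ex.cst c.1).ev v + (Ex.cst c.2).ev v * t.ev v = _
        simp [Ex.ev, evalR]
    | cons c' cs' =>
      rw [evalE.eq_def]
      simp only
      change (if c.2 = 0 then Ex.cst c.1 else Ex.cst c.1 + Ex.cst c.2 * t : Ex).ev v
        + x.ev v * (evalE (c' :: cs') x t).ev v = _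
      rw [ih]
      split_ifs with h
      · simp [Ex.ev, evalR, h]
      · change ((Ex.cst c.1).ev v + (Ex.cst c.2).ev v * t.ev v) + _ = _
        simp [Ex.ev, evalR]

end Pool.Agent.T2H40.BR
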