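import Pool.Agent.T2H40.BR.BuildU

/-!
# Pieces with `a` in `[a0, a1]`, resource `a`, `x, r ∈ [0, 1)` (for `a` near or above `1`)

As `BuildU`, with the variable `v0 = a` instead of the constant, and the exclusions
`x + y > a`, `r + s > a`, `x > a`, `r > a`.
-/

set_option autoImplicit false

namespace Pool.Agent.T2H40.BR

/-- sanity conditions -/
def Piece.okA (p : Piece) : Bool :=
  decide (0 < p.a0) && decide (p.a0 < p.a1) && decide (0 < p.e1) && decide (p.e1 < 3000)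

/-! ### types `C`, `C` (variables `a, x, y`) -/

def accEopts (p : Piece) : List (List Ex) :=
  cList.flatMap (fun n => (p.xy v0 v1 v2).EU n) ++
    [(p.xy v0 v1 v2).E1, [v2 - v1 - tau], [v1 + v2 - v0 - tau]]
def accNopts (p : Piece) : List (List Ex) :=
  let e := p.xy v0 v1 v2
  [[e.GX, e.A, e.A * e.GX - e.x * e.y * (e.D2 * e.D2) * ((e.V * e.U) * (e.V * e.U))],
    [v2 - v1 - tau], [v1 + v2 - v0 - tau]]
def accBox (p : Piece) : Box := ⟨p.a0, p.a1, 0, 3000, 0, 3000⟩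

/-- `V_c ≥ 0` -/
def avCopts (p : Piece) : List (List Ex) :=
  [[.int 1 - v1 * evalE p.W v1 (v0 - .cst p.a0)], [v1 - v0 - tau]]
def aCBox (p : Piece) : Box := ⟨p.a0, p.a1, 0, 3000, 0, 3000⟩

/-- `V_s ≥ 0` -/
def avSopts (p : Piece) (c : SCls) : List (List Ex) :=
  [[evalE c.V v1 (v0 - .cst p.a0)], [v1 - v0 - tau]]
def aSBox (p : Piece) (c : SCls) : Box := ⟨p.a0, p.a1, c.lo, c.hi, 0, 3000⟩

/-! ### types `C`, `S` -/

/-- nonedge, variables `a, x, r` -/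
def acsNopts (p : Piece) (c : SCls) : List (List Ex) :=
  (p.cs c v0 v1 v2).N ++ [[v1 + v2 - .int 1 - tau], [v1 - v0 - tau], [v2 - v0 - tau]]
def acsNBox (p : Piece) (c : SCls) : Box := ⟨p.a0, p.a1, 0, 3000, c.lo, c.hi⟩

/-- star limit, variables `a, x, η` (`w = η x`) -/
def acsEsopts (p : Piece) (c : SCls) : List (List Ex) :=
  (p.cs c v0 v1 ((.int 1 - v1) * (v2 * v1) * (v2 * v1))).Es v2
def acsEsBox (p : Piece) : Box := ⟨p.a0, p.a1, 0, p.e1, 0, 6000⟩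

/-- small `x`, variables `a, x, y` (`w = 2 x + y`) -/
def acsEtopts (p : Piece) (c : SCls) : List (List Ex) :=
  let w := .int 2 * v1 + v2
  let r := (.int 1 - v1) * w * w
  (p.cs c v0 v1 r).E w
    ++ [[r - v0 - tau], [.cst c.lo - r - tau], [r - .cst c.hi - tau], [w - .int 1 - tau]]
def acsEtBox (p : Piece) : Box := ⟨p.a0, p.a1, 0, p.e1, 0, 2 * p.e1⟩

/-- `x, w` directly, variables `a, x, w` -/
def acsEuopts (p : Piece) (c : SCls) : List (List Ex) :=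
  let r := (.int 1 - v1) * v2 * v2
  (p.cs c v0 v1 r).E v2
    ++ [[r - v0 - tau], [.cst c.lo - r - tau], [r - .cst c.hi - tau], [v1 - v0 - tau]]
/-- small `x`, `2 e1 ≤ w` -/
def acsEuBox (p : Piece) : Box := ⟨p.a0, p.a1, 0, p.e1, 2 * p.e1, 3000⟩
/-- `e1 ≤ x` -/
def acsEBox (p : Piece) : Box := ⟨p.a0, p.a1, p.e1, 3000, 0, 3000⟩

/-! ### types `S`, `S` (variables `a, r, s`, `s ≤ r`) -/

def assNopts (p : Piece) (c c' : SCls) : List (List Ex) :=
  (p.ss c c' v0 v1 v2).N ++ [[v2 - v1 - tau], [v1 + v2 - v0 - tau]]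
def assEopts (p : Piece) (c c' : SCls) : List (List Ex) :=
  (p.ss c c' v0 v1 v2).EU ++ [[v2 - v1 - tau], [v1 + v2 - v0 - tau]]
def assBox (p : Piece) (c c' : SCls) : Box := ⟨p.a0, p.a1, c.lo, c.hi, c'.lo, c'.hi⟩

end Pool.Agent.T2H40.BR
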