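import Pool.Agent.T2H40.BR.Build

/-!
# The universal pieces: constant resource `a0 / 3000`, all `a ≥ a0 / 3000`

The functions are those of a `Piece` at `a = a0 / 3000` (so `t = 0`); `x ≤ a1 / 3000`,
`r ≤ tr / 3000`, `x, r < 1`. Variable `0` is not used.
-/

set_option autoImplicit false

namespace Pool.Agent.T2H40.BR

/-- the resource, as an expression -/
def Piece.aU (p : Piece) : Ex := .cst p.a0

/-- the resource, as a real number -/
noncomputable def Piece.arU (p : Piece) : ℝ := (p.a0 : ℝ) / 3000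

/-- sanity conditions -/
def Piece.okU (p : Piece) : Bool :=
  decide (0 < p.a0) && decide (p.a1 ≤ 3000) && decide (0 < p.e1) && decide (p.e1 < 3000)

/-! ### types `C`, `C` (variables `x = v1`, `y = v2`, `y ≤ x`) -/

/-- constants `c` (in units of `1 / 3000`) for the lower bound `1 - x / 2 - c x ^ 2` -/
def cList : List ℤ := [450, 525, 600, 675, 750, 825, 900, 1050, 1260, 1380, 1450]

/-- data of a pair `C`, `C` -/
structure XYE where
  a : Ex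
  lam : Ex
  x : Ex
  y : Ex
  W1 : Ex
  W2 : Ex
  g : Ex
  h : Ex
  d : Ex
  e : Ex

def Piece.xy (p : Piece) (a x y : Ex) : XYE :=
  let t := a - .cst p.a0
  ⟨a, evalE [p.lam] (.int 0) t, x, y, evalE p.W x t, evalE p.W y t, evalE p.g x t, evalE p.g y t,
    evalE p.d x t, evalE p.d y t⟩

def XYE.V (p : XYE) : Ex := .int 1 - p.x * p.W1
def XYE.U (p : XYE) : Ex := .int 1 - p.y * p.W2
def XYE.G1 (p : XYE) : Ex :=
  p.x * p.d + (p.a - p.x) * p.g - (.int 1 - p.x) * (p.V * p.V + .cst 1500 * p.lam)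
def XYE.G2 (p : XYE) : Ex :=
  p.y * p.e + (p.a - p.y) * p.h - (.int 1 - p.y) * (p.U * p.U + .cst 1500 * p.lam)
def XYE.D2 (p : XYE) : Ex := (.int 1 - p.x) * (.int 1 - p.y)
/-- `σ GC` -/
def XYE.GX (p : XYE) : Ex :=
  (p.x + p.y) * p.D2 + p.x * p.y * (p.G1 * (.int 1 - p.y) + p.G2 * (.int 1 - p.x))
def XYE.ch (p : XYE) : Ex := p.d + p.e + p.lam - p.g - p.h
def XYE.A (p : XYE) : Ex := .int 1 - p.x - p.y + p.x * p.y * p.ch
def XYE.Z1 (p : XYE) (c : Ex) : Ex :=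
  (.cst 1500 + c * p.x) + p.W1 - p.x * (.cst 1500 + c * p.x) * p.W1
def XYE.Z2 (p : XYE) (c : Ex) : Ex :=
  (.cst 1500 + c * p.y) + p.W2 - p.y * (.cst 1500 + c * p.y) * p.W2
def XYE.Y1 (p : XYE) : Ex := .cst 1500 + p.W1 - .cst 1500 * p.x * p.W1
def XYE.Y2 (p : XYE) : Ex := .cst 1500 + p.W2 - .cst 1500 * p.y * p.W2
/-- `σ u` -/
def XYE.b (p : XYE) (c : Ex) : Ex :=
  p.x * p.Z1 c + p.y * p.Z2 c - p.x * p.y * (p.Z1 c * p.Z2 c)
/-- `σ u'` -/
def XYE.b' (p : XYE) : Ex := p.x * p.Y1 + p.y * p.Y2 - p.x * p.y * (p.Y1 * p.Y2)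
/-- `σ M` -/
def XYE.M (p : XYE) (z : Ex) : Ex := p.ch * p.GX - p.D2 * (z * z)

/-- options with the constant `n / 3000` -/
def XYE.EU (e : XYE) (n : ℤ) : List (List Ex) :=
  let k1 : Ex := .int 2 * .cst n - .cst 750 - .cst n * e.x - .cst n * .cst n * (e.x * e.x)
  let k2 : Ex := .int 2 - e.x - .int 2 * .cst n * (e.x * e.x)
  [[k1, k2, e.GX, e.ch, e.b (.cst n) + e.b', e.M (e.b (.cst n))],
   [k1, k2, e.GX, e.ch, .int 0 - e.b (.cst n) - e.b', e.M e.b'],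
   [k1, k2, e.GX, e.ch, e.M (e.b (.cst n)), e.M e.b']]

/-- option with the trivial bound `|1 - √D2 V U| ≤ 1` -/
def XYE.E1 (e : XYE) : List Ex := [e.GX, e.ch, .int 2 - e.V * e.U, e.ch * e.GX - e.D2]

def uccEopts (p : Piece) : List (List Ex) :=
  cList.flatMap (fun n => (p.xy p.aU v1 v2).EU n) ++ [(p.xy p.aU v1 v2).E1, [v2 - v1 - tau]]
def uccNopts (p : Piece) : List (List Ex) :=
  let e := p.xy p.aU v1 v2
  [[e.GX, e.A, e.A * e.GX - e.x * e.y * (e.D2 * e.D2) * ((e.V * e.U) * (e.V * e.U))],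
    [v2 - v1 - tau]]
def uccBox (p : Piece) : Box := ⟨0, 3000, 0, p.a1, 0, p.a1⟩

/-- `V_c ≥ 0` -/
def uvCopts (p : Piece) : List (List Ex) :=
  [[.int 1 - v1 * evalE p.W v1 (p.aU - .cst p.a0)]]
/-- `g_c ≥ 0` -/
def ugCopts (p : Piece) : List (List Ex) := [[evalE p.g v1 (p.aU - .cst p.a0)]]
def uCBox (p : Piece) : Box := ⟨0, 3000, 0, p.a1, 0, 3000⟩

/-- `V_s ≥ 0` -/
def uvSopts (p : Piece) (c : SCls) : List (List Ex) := [[evalE c.V v1 (p.aU - .cst p.a0)]]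
/-- `g_s ≥ 0` -/
def ugSopts (p : Piece) (c : SCls) : List (List Ex) := [[evalE c.g v1 (p.aU - .cst p.a0)]]
def uSBox (c : SCls) : Box := ⟨0, 3000, c.lo, c.hi, 0, 3000⟩

/-! ### types `C`, `S` -/

/-- nonedge, variables `x, r` -/
def ucsNopts (p : Piece) (c : SCls) : List (List Ex) :=
  (p.cs c p.aU v1 v2).N ++ [[v1 + v2 - .int 1 - tau]]
def ucsNBox (p : Piece) (c : SCls) : Box := ⟨0, 3000, 0, p.a1, c.lo, c.hi⟩

/-- star limit, variables `x, η` (`w = η x`) -/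
def ucsEsopts (p : Piece) (c : SCls) : List (List Ex) :=
  (p.cs c p.aU v1 ((.int 1 - v1) * (v2 * v1) * (v2 * v1))).Es v2
def ucsEsBox (p : Piece) : Box := ⟨0, 3000, 0, p.e1, 0, 6000⟩

/-- small `x`, variables `x, y` (`w = 2 x + y`) -/
def ucsEtopts (p : Piece) (c : SCls) : List (List Ex) :=
  let w := .int 2 * v1 + v2
  let r := (.int 1 - v1) * w * w
  (p.cs c p.aU v1 r).E w
    ++ [[.cst c.lo - r - tau], [r - .cst c.hi - tau], [w - .int 1 - tau]]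
def ucsEtBox (p : Piece) : Box := ⟨0, 3000, 0, p.e1, 0, 2 * p.e1⟩

/-- small `x`, `2 e1 ≤ w`, variables `x, w` -/
def ucsEuopts (p : Piece) (c : SCls) : List (List Ex) :=
  let r := (.int 1 - v1) * v2 * v2
  (p.cs c p.aU v1 r).E v2 ++ [[.cst c.lo - r - tau], [r - .cst c.hi - tau]]
def ucsEuBox (p : Piece) : Box := ⟨0, 3000, 0, p.e1, 2 * p.e1, 3000⟩

/-- `e1 ≤ x`, variables `x, w` (same options as `ucsEuopts`) -/
def ucsEBox (p : Piece) : Box := ⟨0, 3000, p.e1, p.a1, 0, 3000⟩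

/-! ### types `S`, `S` (variables `r, s`, `s ≤ r`) -/

def SSE.RS (p : SSE) : Ex := (.int 1 - p.r) * (.int 1 - p.s)
def SSE.T (p : SSE) : Ex := .int 1 - (p.r + p.s - .int 1) * (p.V * p.W)
def SSE.Th1 (p : SSE) : Ex := p.c + p.RS * p.Gp

/-- `r + s ≥ 1`: discriminant with multiplier `t` -/
def SSE.BU (p : SSE) (t : Ex) : List Ex :=
  [p.r + p.s - .int 1, p.c - t * p.RS * (p.Ad * p.Bd),
    (p.c - t * p.RS * (p.Ad * p.Bd)) * (p.Gp + t * (p.Ad * p.Bd))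
      - (p.Ad * p.Bd) * (p.Ad * p.Bd) * (p.T * p.T)]

/-- `r + s ≥ 1`: end point -/
def SSE.AU (p : SSE) : List Ex :=
  [p.r + p.s - .int 1, p.T, p.Th1,
    p.Th1 * p.Th1 - .int 4 * p.RS * (p.Ad * p.Bd) * (p.Ad * p.Bd) * (p.T * p.T),
    (p.Ad * p.Bd) * (p.Ad * p.Bd) * (p.T * p.T) - p.Gp * p.Gp * p.RS]

/-- end point (`r + s ≤ 1` or not) -/
def SSE.AE (p : SSE) : List Ex :=
  [p.Th, p.Th * p.Th - .int 4 * p.r * p.s * (p.Ad * p.Bd) * (p.Ad * p.Bd),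
     (p.Ad * p.Bd) * (p.Ad * p.Bd) - p.Gp * p.Gp * p.r * p.s, p.c]

/-- condition for `q ≤ 0` -/
def SSE.NG (p : SSE) : List Ex :=
  [p.G, p.c, .int 2 * p.c
    - (p.Ad * p.Bd) * ((p.r + p.s) * (p.V * p.W) - .int 2) * (.int 2 - p.r - p.s)]

/-- second condition for `q ≤ 0` -/
def SSE.NG2 (p : SSE) : List Ex :=
  [p.G, p.c, .int 4 * p.c * p.G
    - ((p.Ad * p.Bd) * ((p.r + p.s) * (p.V * p.W) - .int 2))
      * ((p.Ad * p.Bd) * ((p.r + p.s) * (p.V * p.W) - .int 2))]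

def SSE.EU (p : SSE) : List (List Ex) :=
  [[.int 1 - p.r - p.s, (.int 1 - p.r - p.s) * (.int 1 - p.r - p.s) - .int 4 * p.r * p.s]] ++
  [p.B (.int 0), p.B (.cst 1500), p.B (.int 1), p.AE].map (fun l => (.int 1 - p.r - p.s) :: l) ++
  [p.B (.int 0), p.B (.cst 1500), p.B (.int 1), p.AE,
    p.BU (.int 0), p.BU (.cst 1500), p.BU (.int 1), p.BU (.int 2), p.AU].map (fun l => l ++ p.NG) ++
  [p.B (.int 0), p.B (.cst 1500), p.B (.int 1), p.AE,
    p.BU (.int 0), p.BU (.cst 1500), p.BU (.int 1), p.BU (.int 2), p.AU].map (fun l => l ++ p.NG2)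

def ussNopts (p : Piece) (c c' : SCls) : List (List Ex) :=
  (p.ss c c' p.aU v1 v2).N ++ [[v2 - v1 - tau]]
def ussEopts (p : Piece) (c c' : SCls) : List (List Ex) :=
  (p.ss c c' p.aU v1 v2).EU ++ [[v2 - v1 - tau]]
def ussBox (c c' : SCls) : Box := ⟨0, 3000, c.lo, c.hi, c'.lo, c'.hi⟩

end Pool.Agent.T2H40.BR
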