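import Pool.Agent.T2H40.BR.Pkg.K2
import Pool.Agent.T2H40.BR.Build

/-!
# Checks with parameters depending on the option; combining boxes
-/

set_option autoImplicit false

namespace Pool.Agent.T2H40.BR

/-- as `check`, with parameters chosen by the option -/
def checkP (ps : List Par) (opts : List (List Ex)) : Tree → Box → Bool
  | .leaf k, B => B.ok && (opts.getD k [Ex.int (-1)]).all
      (fun e => (e.qp (ps.getD k ⟨1, 1, 1, 1⟩) B).ok (ps.getD k ⟨1, 1, 1, 1⟩))
  | .n0 m l r, B => checkP ps opts l {B with h0 := m} && checkP ps opts r {B with l0 := m}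
  | .n1 m l r, B => checkP ps opts l {B with h1 := m} && checkP ps opts r {B with l1 := m}
  | .n2 m l r, B => checkP ps opts l {B with h2 := m} && checkP ps opts r {B with l2 := m}

theorem Chk.n0 {opts : List (List Ex)} {B : Box} (m : ℤ) (h1 : Chk opts {B with h0 := m})
    (h2 : Chk opts {B with l0 := m}) : Chk opts B := by
  intro v hv
  obtain ⟨a1, a2, a3, a4, a5, a6⟩ := hv
  rcases le_total (v 0) ((m : ℝ) / 3000) with h | h
  · exact h1 v ⟨a1, h, a3, a4, a5, a6⟩
  · exact h2 v ⟨h, a2, a3, a4, a5, a6⟩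

theorem Chk.n1 {opts : List (List Ex)} {B : Box} (m : ℤ) (h1 : Chk opts {B with h1 := m})
    (h2 : Chk opts {B with l1 := m}) : Chk opts B := by
  intro v hv
  obtain ⟨a1, a2, a3, a4, a5, a6⟩ := hv
  rcases le_total (v 1) ((m : ℝ) / 3000) with h | h
  · exact h1 v ⟨a1, a2, a3, h, a5, a6⟩
  · exact h2 v ⟨a1, a2, h, a4, a5, a6⟩

theorem Chk.n2 {opts : List (List Ex)} {B : Box} (m : ℤ) (h1 : Chk opts {B with h2 := m})
    (h2 : Chk opts {B with l2 := m}) : Chk opts B := by
  intro v hv
  obtain ⟨a1, a2, a3, a4, a5, a6⟩ := hv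
  rcases le_total (v 2) ((m : ℝ) / 3000) with h | h
  · exact h1 v ⟨a1, a2, a3, a4, a5, h⟩
  · exact h2 v ⟨a1, a2, a3, a4, h, a6⟩

theorem chk_of_checkP (ps : List Par) (opts : List (List Ex)) (T : Tree) :
    ∀ B : Box, checkP ps opts T B = true → Chk opts B := by
  induction T with
  | leaf k =>
    intro B h v hv
    rw [checkP, Bool.and_eq_true, List.all_eq_true] at h
    by_cases hk : k < opts.length
    · refine ⟨opts[k], List.getElem_mem hk, fun e he => ?_⟩
      refine leaf_sound _ B e h.1 (h.2 e ?_) v hv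
      rw [List.getD_eq_getElem _ _ hk]; exact he
    · exfalso
      have h3 := h.2 (Ex.int (-1)) (by
        rw [List.getD_eq_default _ _ (by omega)]; simp)
      have h4 := leaf_sound _ B _ h.1 h3 v hv
      norm_num [Ex.ev] at h4
  | n0 m l r ihl ihr =>
    intro B h
    rw [checkP, Bool.and_eq_true] at h
    exact Chk.n0 m (ihl _ h.1) (ihr _ h.2)
  | n1 m l r ihl ihr =>
    intro B h
    rw [checkP, Bool.and_eq_true] at h
    exact Chk.n1 m (ihl _ h.1) (ihr _ h.2)
  | n2 m l r ihl ihr =>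
    intro B h
    rw [checkP, Bool.and_eq_true] at h
    exact Chk.n2 m (ihl _ h.1) (ihr _ h.2)

end Pool.Agent.T2H40.BR
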