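import Mathlib

/-!
# A verified positivity checker for polynomials in three variables on boxes

Polynomials are evaluated at a Kronecker point (powers of `2 ^ b`), with the substitution
`v = (l + h X) / (1 + X)` for every variable; if all coefficients of the numerator are nonnegative,
the polynomial is nonnegative on the box.
-/

set_option autoImplicit false

namespace Pool.Agent.T2H40.BR

/-- polynomial expressions in three variables; `cst n` is `n / 3000` -/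
inductive Ex
  | cst (n : ℤ)
  | int (n : ℤ)
  | var (i : Fin 3)
  | add (a b : Ex)
  | sub (a b : Ex)
  | mul (a b : Ex)

instance : Add Ex := ⟨Ex.add⟩
instance : Sub Ex := ⟨Ex.sub⟩
instance : Mul Ex := ⟨Ex.mul⟩

/-- real value -/
noncomputable def Ex.ev (v : Fin 3 → ℝ) : Ex → ℝ
  | .cst n => (n : ℝ) / 3000
  | .int n => (n : ℝ)
  | .var i => v i
  | .add a b => a.ev v + b.ev v
  | .sub a b => a.ev v - b.ev v
  | .mul a b => a.ev v * b.ev v

/-- packed polynomial: value at the Kronecker point, degrees, scale exponent, norm bound -/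
structure QP where
  n : ℤ
  d0 : ℕ
  d1 : ℕ
  d2 : ℕ
  s : ℕ
  m : ℕ

/-- a box with endpoints in units of `1 / 3000` -/
structure Box where
  l0 : ℤ
  h0 : ℤ
  l1 : ℤ
  h1 : ℤ
  l2 : ℤ
  h2 : ℤ

/-- Kronecker parameters: bits per digit and number of digits for the three variables -/
structure Par where
  b : ℕ
  D0 : ℕ
  D1 : ℕ
  D2 : ℕ

/-- values of the three variables at the Kronecker point -/
def Par.x0 (p : Par) : ℤ := 2 ^ p.b
def Par.x1 (p : Par) : ℤ := 2 ^ (p.b * p.D0)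
def Par.x2 (p : Par) : ℤ := 2 ^ (p.b * (p.D0 * p.D1))

/-- bring a packed polynomial to degrees `d0 d1 d2` and scale `s` (at least the present ones) -/
def QP.lift (p : Par) (q : QP) (d0 d1 d2 s : ℕ) : ℤ :=
  q.n * (1 + p.x0) ^ (d0 - q.d0) * (1 + p.x1) ^ (d1 - q.d1) * (1 + p.x2) ^ (d2 - q.d2)
    * 3000 ^ (s - q.s)

/-- norm after lifting -/
def QP.liftm (q : QP) (d0 d1 d2 s : ℕ) : ℕ :=
  q.m * 2 ^ (d0 - q.d0) * 2 ^ (d1 - q.d1) * 2 ^ (d2 - q.d2) * 3000 ^ (s - q.s)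

def QP.add (p : Par) (q r : QP) : QP :=
  let d0 := max q.d0 r.d0
  let d1 := max q.d1 r.d1
  let d2 := max q.d2 r.d2
  let s := max q.s r.s
  ⟨q.lift p d0 d1 d2 s + r.lift p d0 d1 d2 s, d0, d1, d2, s,
    q.liftm d0 d1 d2 s + r.liftm d0 d1 d2 s⟩

def QP.sub (p : Par) (q r : QP) : QP :=
  let d0 := max q.d0 r.d0
  let d1 := max q.d1 r.d1
  let d2 := max q.d2 r.d2
  let s := max q.s r.s
  ⟨q.lift p d0 d1 d2 s - r.lift p d0 d1 d2 s, d0, d1, d2, s,
    q.liftm d0 d1 d2 s + r.liftm d0 d1 d2 s⟩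

def QP.mul (q r : QP) : QP :=
  ⟨q.n * r.n, q.d0 + r.d0, q.d1 + r.d1, q.d2 + r.d2, q.s + r.s, q.m * r.m⟩

/-- packed evaluation on a box -/
def Ex.qp (p : Par) (B : Box) : Ex → QP
  | .cst n => ⟨n, 0, 0, 0, 1, n.natAbs⟩
  | .int n => ⟨n, 0, 0, 0, 0, n.natAbs⟩
  | .var ⟨0, _⟩ => ⟨B.l0 + B.h0 * p.x0, 1, 0, 0, 1, B.l0.natAbs + B.h0.natAbs⟩
  | .var ⟨1, _⟩ => ⟨B.l1 + B.h1 * p.x1, 0, 1, 0, 1, B.l1.natAbs + B.h1.natAbs⟩
  | .var ⟨_, _⟩ => ⟨B.l2 + B.h2 * p.x2, 0, 0, 1, 1, B.l2.natAbs + B.h2.natAbs⟩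
  | .add a b => QP.add p (a.qp p B) (b.qp p B)
  | .sub a b => QP.sub p (a.qp p B) (b.qp p B)
  | .mul a b => QP.mul (a.qp p B) (b.qp p B)

/-- mask with the top bit of each of the `K` digits -/
def kmask (b K : ℕ) : ℕ := 2 ^ (b - 1) * ((2 ^ (b * K) - 1) / (2 ^ b - 1))

/-- the test that all coefficients of a packed polynomial are nonnegative -/
def QP.ok (p : Par) (q : QP) : Bool :=
  decide (1 ≤ p.b) && decide (q.d0 < p.D0) && decide (q.d1 < p.D1) && decide (q.d2 < p.D2) &&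
  decide (q.m < 2 ^ (p.b - 1)) && decide (0 ≤ q.n) &&
  decide (Nat.land q.n.toNat (kmask p.b (p.D0 * p.D1 * p.D2)) = 0)

def Box.ok (B : Box) : Bool := decide (B.l0 < B.h0) && decide (B.l1 < B.h1) && decide (B.l2 < B.h2)

/-- subdivision trees; leaves choose one of the options -/
inductive Tree
  | leaf (k : ℕ)
  | n0 (m : ℤ) (l r : Tree)
  | n1 (m : ℤ) (l r : Tree)
  | n2 (m : ℤ) (l r : Tree)

def check (p : Par) (opts : List (List Ex)) : Tree → Box → Bool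
  | .leaf k, B => B.ok && (opts.getD k [Ex.int (-1)]).all (fun e => (e.qp p B).ok p)
  | .n0 m l r, B => check p opts l {B with h0 := m} && check p opts r {B with l0 := m}
  | .n1 m l r, B => check p opts l {B with h1 := m} && check p opts r {B with l1 := m}
  | .n2 m l r, B => check p opts l {B with h2 := m} && check p opts r {B with l2 := m}

/-- membership in a box -/
def Box.mem (B : Box) (v : Fin 3 → ℝ) : Prop :=
  (B.l0 : ℝ) / 3000 ≤ v 0 ∧ v 0 ≤ (B.h0 : ℝ) / 3000 ∧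
  (B.l1 : ℝ) / 3000 ≤ v 1 ∧ v 1 ≤ (B.h1 : ℝ) / 3000 ∧
  (B.l2 : ℝ) / 3000 ≤ v 2 ∧ v 2 ≤ (B.h2 : ℝ) / 3000

end Pool.Agent.T2H40.BR
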